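import Pool.Agent.Lib.MP_b6294e_pw.NT

/-!
# The independence lemma
-/

set_option autoImplicit false

namespace Pool.Agent.MP_b6294e.Pw

open Finset

section

variable {O : Type*} [CommRing O] {p : ℕ}

theorem pow_congr' {y : O} (hy : (p : O) ∣ y - 1) {t m m' : ℕ} (h : m ≡ m' [MOD p ^ t]) :
    (p : O) ^ t ∣ y ^ m - y ^ m' := by
  have key : ∀ m m' : ℕ, m ≤ m' → m ≡ m' [MOD p ^ t] → (p : O) ^ t ∣ y ^ m' - y ^ m := by
    intro m m' hle hm
    obtain ⟨l, hl⟩ := (Nat.modEq_iff_dvd' hle).mp hm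
    have h1 : m' = m + p ^ t * l := by omega
    have h2 : (p : O) ^ (t + 1) ∣ y ^ p ^ t - 1 ^ p ^ t := dvd_sub_pow_of_dvd_sub hy t
    rw [one_pow] at h2
    have h3 : y ^ p ^ t - 1 ∣ (y ^ p ^ t) ^ l - 1 := by
      simpa using sub_dvd_pow_sub_pow (y ^ p ^ t) 1 l
    have h4 : y ^ m' - y ^ m = y ^ m * ((y ^ p ^ t) ^ l - 1) := by
      rw [h1, pow_add, pow_mul]
      ring
    rw [h4]
    exact Dvd.dvd.mul_left ((pow_dvd_pow _ (Nat.le_succ t)).trans (h2.trans h3)) _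
  rcases le_total m m' with h0 | h0
  · have := key m m' h0 h
    rwa [← dvd_neg, neg_sub]
  · exact key m' m h0 h.symm

/-- `v` is `1 + p τ` modulo `p ^ 2`. -/
def A1 (p : ℕ) (v τ : O) : Prop := (p : O) ^ 2 ∣ v - (1 + p * τ)

theorem A1.mul {v τ v' τ' : O} (h : A1 p v τ) (h' : A1 p v' τ') : A1 p (v * v') (τ + τ') := by
  obtain ⟨a, ha⟩ := h
  obtain ⟨b, hb⟩ := h'
  have h1 : v = 1 + p * τ + p ^ 2 * a := by linear_combination ha
  have h2 : v' = 1 + p * τ' + p ^ 2 * b := by linear_combination hb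
  refine ⟨τ * τ' + a * (1 + p * τ') + b * (1 + p * τ) + p ^ 2 * a * b, ?_⟩
  rw [h1, h2]
  ring

theorem A1.one : A1 p (1 : O) 0 := ⟨0, by ring⟩

theorem A1.pow {v τ : O} (h : A1 p v τ) (n : ℕ) : A1 p (v ^ n) (n * τ) := by
  induction n with
  | zero => simpa using (A1.one (O := O) (p := p))
  | succ n ih =>
    have := ih.mul h
    rw [pow_succ]
    convert this using 1
    push_cast
    ring

theorem A1.inv {v : Oˣ} {τ : O} (h : A1 p (v : O) τ) : A1 p ((v⁻¹ : Oˣ) : O) (-τ) := by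
  obtain ⟨a, ha⟩ := h
  have h1 : (v : O) = 1 + p * τ + p ^ 2 * a := by linear_combination ha
  have h2 : (v : O) * (v⁻¹ : Oˣ) = 1 := v.mul_inv
  refine ⟨(v⁻¹ : Oˣ) * (τ ^ 2 - a * (1 - p * τ)), ?_⟩
  have h3 : ((v⁻¹ : Oˣ) : O) - (1 + p * -τ) = (v⁻¹ : Oˣ) * (1 - v * (1 - p * τ)) := by
    rw [mul_sub, mul_one, ← mul_assoc, v.inv_mul]
    ring
  rw [h3, h1]
  ring

theorem A1.zpow {v : Oˣ} {τ : O} (h : A1 p (v : O) τ) (j : ℤ) :
    A1 p ((v ^ j : Oˣ) : O) (j * τ) := by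
  obtain ⟨n, rfl | rfl⟩ := j.eq_nat_or_neg
  · have := h.pow n
    simpa using this
  · have h1 : A1 p ((v ^ n : Oˣ) : O) (n * τ) := by simpa using h.pow n
    have h2 := h1.inv
    simpa using h2

theorem A1.prod {ι : Type*} (s : Finset ι) {v : ι → Oˣ} {τ : ι → O}
    (h : ∀ i ∈ s, A1 p (v i : O) (τ i)) : A1 p ((∏ i ∈ s, v i : Oˣ) : O) (∑ i ∈ s, τ i) := by
  classical
  induction s using Finset.induction_on with
  | empty => simpa using (A1.one (O := O) (p := p))
  | insert i s hi ih =>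
    rw [prod_insert hi, sum_insert hi, Units.val_mul]
    exact (h i (mem_insert_self _ _)).mul (ih fun j hj => h j (mem_insert_of_mem hj))

/-- The sum of the powers of `1 + p z` is `p (1 + p ξ)`. -/
theorem geom_aux (hodd : Odd p) (z : O) :
    ∃ ξ : O, ∑ i ∈ range p, (1 + (p : O) * z) ^ i = p * (1 + p * ξ) := by
  have h1 : ∀ n : ℕ, ∃ c : O, (1 + (p : O) * z) ^ n = 1 + n * (p * z) + p ^ 2 * c := by
    intro n
    obtain ⟨c, hc⟩ := (show A1 p (1 + (p : O) * z) z from ⟨0, by ring⟩).pow n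
    exact ⟨c, by linear_combination hc⟩
  choose c hc using h1
  obtain ⟨q, hq⟩ := hodd
  have h2 : ∑ i ∈ range p, (i : O) = p * q := by
    have h3 : (∑ i ∈ range p, i) = p * q := by
      rw [sum_range_id, hq]
      have : (2 * q + 1) * (2 * q + 1 - 1) = 2 * ((2 * q + 1) * q) := by
        rw [Nat.add_sub_cancel]
        ring
      rw [this, Nat.mul_div_cancel_left _ (by norm_num)]
    rw [← Nat.cast_sum, h3]
    push_cast
    ring
  refine ⟨q * z + ∑ i ∈ range p, c i, ?_⟩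
  simp_rw [hc]
  rw [sum_add_distrib, sum_add_distrib, ← sum_mul, ← mul_sum, h2]
  simp only [sum_const, card_range, nsmul_eq_mul, mul_one]
  ring

variable [IsLocalRing O]

theorem isUnit_one_add (hpm : (p : O) ∈ IsLocalRing.maximalIdeal O) (ξ : O) :
    IsUnit (1 + p * ξ) := by
  have h1 : (p : O) * ξ ∈ IsLocalRing.maximalIdeal O := Ideal.mul_mem_right _ _ hpm
  by_contra h
  have h2 : (1 + p * ξ : O) ∈ IsLocalRing.maximalIdeal O :=
    (IsLocalRing.mem_maximalIdeal _).mpr h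
  have h3 : (1 : O) ∈ IsLocalRing.maximalIdeal O := by
    have := Ideal.sub_mem _ h2 h1
    simpa using this
  exact (Ideal.ne_top_iff_one _).mp (IsLocalRing.maximalIdeal.isMaximal O).ne_top h3

theorem exact_pow (hodd : Odd p) (hpm : (p : O) ∈ IsLocalRing.maximalIdeal O) {y η : O} {k : ℕ}
    (hη : IsUnit η) (hy : y = 1 + p ^ (k + 1) * η) :
    ∃ η' : O, IsUnit η' ∧ y ^ p = 1 + p ^ (k + 2) * η' := by
  obtain ⟨ξ, hξ⟩ := geom_aux hodd ((p : O) ^ k * η)
  have h1 : (1 + (p : O) * (p ^ k * η)) = y := by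
    rw [hy]
    ring
  rw [h1] at hξ
  refine ⟨η * (1 + p * ξ), hη.mul (isUnit_one_add hpm ξ), ?_⟩
  have h2 : (∑ i ∈ range p, y ^ i) * (y - 1) = y ^ p - 1 := geom_sum_mul y p
  rw [hξ] at h2
  have h3 : y - 1 = p ^ (k + 1) * η := by rw [hy]; ring
  rw [h3] at h2
  linear_combination -h2

theorem exact_pow_iter (hodd : Odd p) (hpm : (p : O) ∈ IsLocalRing.maximalIdeal O) {y η : O}
    (hη : IsUnit η) (hy : y = 1 + p * η) (e : ℕ) :
    ∃ η' : O, IsUnit η' ∧ y ^ p ^ e = 1 + p ^ (e + 1) * η' := by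
  induction e with
  | zero => exact ⟨η, hη, by simpa using hy⟩
  | succ e ih =>
    obtain ⟨η', h1, h2⟩ := ih
    obtain ⟨η'', h3, h4⟩ := exact_pow hodd hpm h1 h2
    exact ⟨η'', h3, by rw [pow_succ, pow_mul, h4]⟩

/-- Two different monomials in units whose logarithms are independent: the valuation of the
difference is known. -/
theorem diff_aux {N : ℕ} (hp : p.Prime) (hodd : Odd p)
    (hpm : (p : O) ∈ IsLocalRing.maximalIdeal O) (v : Fin N → Oˣ) (τ : Fin N → O)
    (hv : ∀ i, A1 p (v i : O) (τ i))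
    (hτ : ∀ j : Fin N → ℤ, (∃ i, ¬ (p : ℤ) ∣ j i) → IsUnit (∑ i, (j i : O) * τ i))
    (a B : ℕ) (m m' : Fin N → ℕ) (hne : m ≠ m') (hB : ∀ i, m i ≤ B ∧ m' i ≤ B) :
    ((∏ i, (v i : O) ^ m i) ^ p ^ a - (∏ i, (v i : O) ^ m' i) ^ p ^ a) ∣ (p : O) ^ (B + a + 1) := by
  classical
  -- the largest power of `p` which divides all differences
  have hex : ∃ e : ℕ, e ≤ B ∧ (∀ i, (p : ℤ) ^ e ∣ (m i : ℤ) - m' i) ∧
      ∃ i, ¬ (p : ℤ) ^ (e + 1) ∣ (m i : ℤ) - m' i := by
    have h0 : ∃ e : ℕ, ∃ i, ¬ (p : ℤ) ^ (e + 1) ∣ (m i : ℤ) - m' i := by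
      obtain ⟨i, hi⟩ := Function.ne_iff.mp hne
      refine ⟨B, i, fun h => ?_⟩
      have h1 : (m i : ℤ) - m' i ≠ 0 := by
        intro h2
        apply hi
        exact_mod_cast sub_eq_zero.mp h2
      have h2 := Int.le_of_dvd (abs_pos.mpr h1) ((dvd_abs _ _).mpr h)
      have h3 : |(m i : ℤ) - m' i| ≤ B := by
        have h4 := (hB i).1
        have h5 := (hB i).2
        rw [abs_le]
        constructor <;> omega
      have h4 : (B : ℤ) < (p : ℤ) ^ (B + 1) := by
        have h5 : B + 1 < p ^ (B + 1) := Nat.lt_pow_self hp.one_lt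
        have h6 : ((B + 1 : ℕ) : ℤ) < ((p ^ (B + 1) : ℕ) : ℤ) := by exact_mod_cast h5
        push_cast at h6
        linarith
      linarith
    refine ⟨Nat.find h0, ?_, ?_, Nat.find_spec h0⟩
    · have h1 : ∃ i, ¬ (p : ℤ) ^ (B + 1) ∣ (m i : ℤ) - m' i := by
        obtain ⟨i, hi⟩ := Function.ne_iff.mp hne
        refine ⟨i, fun h => ?_⟩
        have h1 : (m i : ℤ) - m' i ≠ 0 := by
          intro h2
          apply hi
          exact_mod_cast sub_eq_zero.mp h2
        have h2 := Int.le_of_dvd (abs_pos.mpr h1) ((dvd_abs _ _).mpr h)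
        have h3 : |(m i : ℤ) - m' i| ≤ B := by
          have h4 := (hB i).1
          have h5 := (hB i).2
          rw [abs_le]
          constructor <;> omega
        have h4 : (B : ℤ) < (p : ℤ) ^ (B + 1) := by
          have h5 : B + 1 < p ^ (B + 1) := Nat.lt_pow_self hp.one_lt
          have h6 : ((B + 1 : ℕ) : ℤ) < ((p ^ (B + 1) : ℕ) : ℤ) := by exact_mod_cast h5
          push_cast at h6
          linarith
        linarith
      exact Nat.find_min' h0 h1
    · intro i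
      rcases hf : Nat.find h0 with _ | e
      · simp
      · by_contra h
        have h1 := Nat.find_min h0 (m := e) (by omega)
        exact h1 ⟨i, h⟩
  obtain ⟨e, heB, hdiv, hnd⟩ := hex
  choose j hj using hdiv
  have hjn : ∃ i, ¬ (p : ℤ) ∣ j i := by
    obtain ⟨i, hi⟩ := hnd
    refine ⟨i, fun h => hi ?_⟩
    rw [hj i, pow_succ]
    exact mul_dvd_mul_left _ h
  set y : Oˣ := ∏ i, v i ^ j i with hy
  have hA : A1 p (y : O) (∑ i, (j i : O) * τ i) := by
    rw [hy]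
    exact A1.prod _ fun i _ => (hv i).zpow (j i)
  obtain ⟨c, hc⟩ := hA
  set η : O := (∑ i, (j i : O) * τ i) + p * c with hη
  have hηu : IsUnit η := by
    obtain ⟨w, hw⟩ := hτ j hjn
    have h1 : η = w * (1 + p * ((w⁻¹ : Oˣ) * c)) := by
      rw [hη, ← hw]
      have : (w : O) * (w⁻¹ : Oˣ) = 1 := w.mul_inv
      linear_combination -(p * c : O) * this
    rw [h1]
    exact w.isUnit.mul (isUnit_one_add hpm _)
  have hy1 : (y : O) = 1 + p * η := by
    rw [hη]
    linear_combination hc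
  obtain ⟨η', hη', hpow⟩ := exact_pow_iter hodd hpm hηu hy1 (e + a)
  -- the quotient of the two monomials
  set M : Oˣ := ∏ i, v i ^ m i with hM
  set M' : Oˣ := ∏ i, v i ^ m' i with hM'
  have hMM : M = M' * y ^ p ^ e := by
    rw [hM, hM', hy, ← prod_pow, ← prod_mul_distrib]
    refine prod_congr rfl fun i _ => ?_
    rw [← zpow_natCast, ← zpow_natCast, ← zpow_natCast, ← zpow_mul, ← zpow_add]
    congr 1
    have := hj i
    push_cast
    linarith
  have h1 : (∏ i, (v i : O) ^ m i) = (M : O) := by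
    rw [hM]
    push_cast
    rfl
  have h2 : (∏ i, (v i : O) ^ m' i) = (M' : O) := by
    rw [hM']
    push_cast
    rfl
  rw [h1, h2, hMM]
  have h3 : ((M' * y ^ p ^ e : Oˣ) : O) ^ p ^ a - (M' : O) ^ p ^ a =
      (M' : O) ^ p ^ a * ((y : O) ^ p ^ (e + a) - 1) := by
    rw [Units.val_mul, Units.val_pow_eq_pow_val, mul_pow, ← pow_mul, ← pow_add]
    ring
  rw [h3, hpow]
  have h4 : (M' : O) ^ p ^ a * (1 + p ^ (e + a + 1) * η' - 1) =
      p ^ (e + a + 1) * ((M' : O) ^ p ^ a * η') := by ring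
  rw [h4]
  have h5 : IsUnit ((M' : O) ^ p ^ a * η') := (M'.isUnit.pow _).mul hη'
  rw [h5.mul_right_dvd]
  exact pow_dvd_pow _ (by omega)

omit [IsLocalRing O] in
/-- Lagrange interpolation: divisibility of all power sums gives divisibility of the
coefficients. -/
theorem lagrange_aux {ι : Type*} [DecidableEq ι] (S : Finset ι) (g ν : ι → O) (P : O)
    (h : ∀ i : ℕ, P ∣ ∑ m ∈ S, g m * ν m ^ i) (m : ι) (hm : m ∈ S) :
    P ∣ g m * ∏ m' ∈ S.erase m, (ν m - ν m') := by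
  classical
  set L : Polynomial O := ∏ m' ∈ S.erase m, (Polynomial.X - Polynomial.C (ν m')) with hL
  have hev : ∀ x : O, L.eval x = ∏ m' ∈ S.erase m, (x - ν m') := by
    intro x
    rw [hL, Polynomial.eval_prod]
    simp
  have h1 : ∑ m'' ∈ S, g m'' * L.eval (ν m'') = g m * ∏ m' ∈ S.erase m, (ν m - ν m') := by
    rw [sum_eq_single m]
    · rw [hev]
    · intro m'' hm'' hne
      rw [hev, prod_eq_zero (mem_erase.mpr ⟨hne, hm''⟩) (sub_self _), mul_zero]
    · intro h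
      exact absurd hm h
  have h2 : ∑ m'' ∈ S, g m'' * L.eval (ν m'') =
      ∑ i ∈ range (L.natDegree + 1), L.coeff i * ∑ m'' ∈ S, g m'' * ν m'' ^ i := by
    simp_rw [Polynomial.eval_eq_sum_range, mul_sum]
    rw [sum_comm]
    refine sum_congr rfl fun i _ => sum_congr rfl fun m'' _ => ?_
    ring
  rw [← h1, h2]
  exact dvd_sum fun i _ => Dvd.dvd.mul_left (h i) _

omit [IsLocalRing O] in
theorem A1.congr {v v' τ : O} (h : A1 p v' τ) (hv : (p : O) ^ 2 ∣ v - v') : A1 p v τ := by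
  have := dvd_add hv h
  unfold A1
  convert this using 1
  ring

omit [IsLocalRing O] in
theorem dvd_prod_sub {ι : Type*} (s : Finset ι) (x y : ι → O) (m : ι → ℕ) (P : O)
    (h : ∀ i ∈ s, P ∣ x i - y i) : P ∣ ∏ i ∈ s, x i ^ m i - ∏ i ∈ s, y i ^ m i := by
  rw [← Ideal.mem_span_singleton, ← Ideal.Quotient.eq, map_prod, map_prod]
  refine prod_congr rfl fun i hi => ?_
  rw [map_pow, map_pow, Ideal.Quotient.eq.mpr (Ideal.mem_span_singleton.mpr (h i hi))]

omit [IsLocalRing O] in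
theorem dvd_sum_congr {ι : Type*} (s : Finset ι) (g x y : ι → O) (P : O)
    (h : ∀ i ∈ s, P ∣ x i - y i) (hx : P ∣ ∑ i ∈ s, g i * x i) : P ∣ ∑ i ∈ s, g i * y i := by
  have h1 : ∑ i ∈ s, g i * y i = ∑ i ∈ s, g i * x i - ∑ i ∈ s, g i * (x i - y i) := by
    rw [← sum_sub_distrib]
    exact sum_congr rfl fun i _ => by ring
  rw [h1]
  exact dvd_sub hx (dvd_sum fun i hi => Dvd.dvd.mul_left (h i hi) _)

/-- The independence lemma. -/
theorem core [IsDomain O] (hp : p.Prime) (hp2 : p ≠ 2)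
    (hpm : (p : O) ∈ IsLocalRing.maximalIdeal O) (hp0 : (p : O) ≠ 0) {d : ℕ} (hd : 2 ≤ d)
    (hpd : ¬ p ∣ d) {N : ℕ} (θ : Fin N → O)
    (hθ : ∀ j : Fin N → ℤ, (∃ i, ¬ (p : ℤ) ∣ j i) → IsUnit (∑ i, (j i : O) * θ i))
    (u : ℕ → Fin N → O) (hu0 : ∀ i, A1 p (u 0 i) (θ i))
    (hu : ∀ n i, (p : O) ^ (2 * d ^ n) ∣ u (n + 1) i - u n i ^ d)
    (S : Finset (Fin N →₀ ℕ)) (g : (Fin N →₀ ℕ) → O)
    (hS : ∀ n, (p : O) ^ (2 * d ^ n) ∣ ∑ m ∈ S, g m * ∏ i, u n i ^ m i) :
    ∀ m ∈ S, ∀ t : ℕ, (p : O) ^ t ∣ g m := by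
  classical
  have hodd : Odd p := hp.odd_of_ne_two hp2
  have hdpos : ∀ n : ℕ, 1 ≤ d ^ n := fun n => Nat.one_le_pow _ _ (by omega)
  obtain ⟨a, ha1, hcl⟩ := closure_pow p hp hp2 d hd hpd
  -- (a)
  have hA : ∀ n i, A1 p (u n i) ((d : O) ^ n * θ i) := by
    intro n
    induction n with
    | zero => intro i; simpa using hu0 i
    | succ n ih =>
      intro i
      have h1 := (ih i).pow d
      have h2 : (p : O) ^ 2 ∣ u (n + 1) i - u n i ^ d :=
        (pow_dvd_pow _ (by have := hdpos n; omega)).trans (hu n i)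
      have h3 := h1.congr h2
      convert h3 using 1
      ring
  -- (b)
  have hb : ∀ n j i, (p : O) ^ (2 * d ^ n) ∣ u (n + j) i - u n i ^ d ^ j := by
    intro n j
    induction j with
    | zero => intro i; simp
    | succ j ih =>
      intro i
      have h1 : (p : O) ^ (2 * d ^ n) ∣ u (n + (j + 1)) i - u (n + j) i ^ d := by
        refine (pow_dvd_pow _ ?_).trans (hu (n + j) i)
        have : d ^ n ≤ d ^ (n + j) := Nat.pow_le_pow_right (by omega) (by omega)
        omega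
      have h2 : (p : O) ^ (2 * d ^ n) ∣ u (n + j) i ^ d - (u n i ^ d ^ j) ^ d :=
        (ih i).trans (sub_dvd_pow_sub_pow _ _ _)
      have h3 := dvd_add h1 h2
      have h4 : u n i ^ d ^ (j + 1) = (u n i ^ d ^ j) ^ d := by rw [pow_succ, pow_mul]
      rw [h4]
      convert h3 using 1
      ring
  -- units
  have hunit : ∀ n i, IsUnit (u n i) := by
    intro n i
    obtain ⟨c, hc⟩ := hA n i
    have h1 : u n i = 1 + p * ((d : O) ^ n * θ i + p * c) := by linear_combination hc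
    rw [h1]
    exact isUnit_one_add hpm _
  have hdu : IsUnit (d : O) := by
    by_contra h
    have h1 : (d : O) ∈ IsLocalRing.maximalIdeal O := (IsLocalRing.mem_maximalIdeal _).mpr h
    have hcop : IsCoprime (d : ℤ) (p : ℤ) :=
      Nat.isCoprime_iff_coprime.mpr ((Nat.Prime.coprime_iff_not_dvd hp).mpr hpd).symm
    obtain ⟨x, y, hxy⟩ := hcop
    have h2 : (x : O) * d + y * p = 1 := by exact_mod_cast congrArg (Int.cast : ℤ → O) hxy
    have h3 : (1 : O) ∈ IsLocalRing.maximalIdeal O := by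
      rw [← h2]
      exact Ideal.add_mem _ (Ideal.mul_mem_left _ _ h1) (Ideal.mul_mem_left _ _ hpm)
    exact (Ideal.ne_top_iff_one _).mp (IsLocalRing.maximalIdeal.isMaximal O).ne_top h3
  obtain ⟨B, hB⟩ : ∃ B : ℕ, ∀ m ∈ S, ∀ i, m i ≤ B := by
    refine ⟨∑ m ∈ S, ∑ i, m i, fun m hm i => ?_⟩
    exact (single_le_sum (f := fun i => m i) (fun _ _ => Nat.zero_le _) (mem_univ i)).trans
      (single_le_sum (f := fun m : Fin N →₀ ℕ => ∑ i, m i) (fun _ _ => Nat.zero_le _) hm)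
  intro m hm t
  set C : ℕ := (S.erase m).card * (B + a + 1) with hC
  set n : ℕ := t + C with hn
  set U : (Fin N →₀ ℕ) → O := fun m => ∏ i, u n i ^ m i with hU
  have hUp : ∀ m, (p : O) ∣ U m - 1 := by
    intro m
    have h1 : (p : O) ∣ ∏ i, u n i ^ m i - ∏ i : Fin N, (1 : O) ^ m i := by
      refine dvd_prod_sub univ _ _ _ _ fun i _ => ?_
      obtain ⟨c, hc⟩ := hA n i
      exact ⟨(d : O) ^ n * θ i + p * c, by linear_combination hc⟩
    simpa using h1
  -- (c), (d)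
  have hd1 : ∀ i : ℕ, (p : O) ^ (2 * d ^ n) ∣ ∑ m ∈ S, (g m * U m) * (U m ^ p ^ a) ^ i := by
    intro i
    obtain ⟨j, hj⟩ := hcl i (2 * d ^ n)
    have h1 : (p : O) ^ (2 * d ^ n) ∣ ∑ m ∈ S, g m * ∏ i, u (n + j) i ^ m i := by
      refine (pow_dvd_pow _ ?_).trans (hS (n + j))
      have : d ^ n ≤ d ^ (n + j) := Nat.pow_le_pow_right (by omega) (by omega)
      omega
    have h2 : (p : O) ^ (2 * d ^ n) ∣ ∑ m ∈ S, g m * U m ^ d ^ j := by
      refine dvd_sum_congr S g _ _ _ (fun m _ => ?_) h1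
      have h3 : U m ^ d ^ j = ∏ i, (u n i ^ d ^ j) ^ m i := by
        rw [hU]
        simp only
        rw [← prod_pow]
        refine prod_congr rfl fun i _ => ?_
        rw [← pow_mul, ← pow_mul, mul_comm]
      rw [h3]
      exact dvd_prod_sub univ _ _ _ _ fun i _ => hb n j i
    have h3 : (p : O) ^ (2 * d ^ n) ∣ ∑ m ∈ S, g m * U m ^ (1 + p ^ a * i) :=
      dvd_sum_congr S g _ _ _ (fun m _ => pow_congr' (hUp m) hj) h2
    convert h3 using 1
    refine sum_congr rfl fun m _ => ?_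
    rw [pow_add, pow_one, pow_mul]
    ring
  have he := lagrange_aux S (fun m => g m * U m) (fun m => U m ^ p ^ a) _ hd1 m hm
  -- the product divides a power of `p`
  choose v hv using fun i => hunit n i
  have hD : ∏ m' ∈ S.erase m, (U m ^ p ^ a - U m' ^ p ^ a) ∣ (p : O) ^ C := by
    have h1 : (p : O) ^ C = ∏ _m' ∈ S.erase m, (p : O) ^ (B + a + 1) := by
      rw [prod_const, ← pow_mul, hC, mul_comm]
    rw [h1]
    refine prod_dvd_prod_of_dvd _ _ fun m' hm' => ?_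
    have h2 : (m : Fin N → ℕ) ≠ m' := by
      intro h
      exact (ne_of_mem_erase hm') (DFunLike.coe_injective h.symm)
    have h3 := diff_aux hp hodd hpm v (fun i => (d : O) ^ n * θ i)
      (fun i => by rw [hv]; exact hA n i) (fun j hj => by
        have h4 : ∑ i, (j i : O) * ((d : O) ^ n * θ i) = (d : O) ^ n * ∑ i, (j i : O) * θ i := by
          rw [mul_sum]
          exact sum_congr rfl fun i _ => by ring
        rw [h4]
        exact (hdu.pow n).mul (hθ j hj)) a B m m' h2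
      (fun i => ⟨hB m hm i, hB m' (mem_of_mem_erase hm') i⟩)
    simp only [hv] at h3
    exact h3
  have hUu : IsUnit (U m) := by
    rw [hU]
    simp only
    exact (IsUnit.prod_univ_iff).mpr fun i => (hunit n i).pow _
  have h5 : (p : O) ^ (2 * d ^ n) ∣ (g m * p ^ C) * U m := by
    have h6 : g m * U m * ∏ m' ∈ S.erase m, (U m ^ p ^ a - U m' ^ p ^ a) ∣ g m * U m * p ^ C :=
      mul_dvd_mul_left _ hD
    have := he.trans h6
    convert this using 1
    ring
  rw [hUu.dvd_mul_right] at h5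
  have h6 : n < d ^ n := Nat.lt_pow_self (by omega)
  have h7 : (p : O) ^ (t + C) ∣ g m * p ^ C :=
    (pow_dvd_pow _ (by omega)).trans h5
  rw [pow_add] at h7
  exact (mul_dvd_mul_iff_right (pow_ne_zero _ hp0)).mp h7

end

end Pool.Agent.MP_b6294e.Pw
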