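import Pool.Agent.Lib.MP_b6294e_pw.Scale

/-!
# Zariski density of the orbits
-/

set_option autoImplicit false

namespace Pool.Agent.MP_b6294e.Pw

open Finset MvPolynomial

variable {K : Type*} [Field K] {N : ℕ}

theorem dvd_iff_coe (V : ValuationSubring K) {c : K} (hcV : c ∈ V) (x : V) :
    (⟨c, hcV⟩ : V) ∣ x ↔ ∃ ε ∈ V, (x : K) = c * ε := by
  constructor
  · rintro ⟨y, rfl⟩
    exact ⟨y, y.2, rfl⟩
  · rintro ⟨ε, hε, h⟩
    exact ⟨⟨ε, hε⟩, Subtype.ext h⟩

/-- If a nonzero polynomial vanishes on a sequence of points `γ c ^ (-w) u` which satisfies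
the congruences `u (n + 1) ≡ u n ^ d` we get a contradiction. -/
theorem no_relation (V : ValuationSubring K) {p : ℕ} (hp : p.Prime) (hp2 : p ≠ 2)
    (hpV : (p : K)⁻¹ ∉ V) (hp0 : (p : K) ≠ 0) {d : ℕ} (hd : 2 ≤ d) (hpd : ¬ p ∣ d)
    (θ : Fin N → V)
    (hθ : ∀ j : Fin N → ℤ, (∃ i, ¬ (p : ℤ) ∣ j i) → IsUnit (∑ i, (j i : V) * θ i))
    (u : ℕ → Fin N → V) (hu0 : ∀ i, A1 p (u 0 i) (θ i))
    (hu : ∀ n i, (p : V) ^ (2 * d ^ n) ∣ u (n + 1) i - u n i ^ d)
    (w : Fin N → ℤ) (γ : Fin N → K) (hγ : ∀ i, γ i ≠ 0) (R : MvPolynomial (Fin N) K)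
    (hR : ∀ n, eval (fun i => γ i * ((p : K) ^ (2 * d ^ n)) ^ (-w i) * (u n i : K)) R = 0) :
    R = 0 := by
  classical
  by_contra hR0
  have hpm := p_mem_max V hpV
  have hpVm : (p : K) ∈ V := by exact_mod_cast (SetLike.coe_mem (p : V))
  have hp0' : (p : V) ≠ 0 := by
    intro h
    apply hp0
    have := congrArg (fun x : V => (x : K)) h
    simpa using this
  -- the coefficients
  set a : (Fin N →₀ ℕ) → K := fun m => R.coeff m * ∏ i, γ i ^ m i with ha
  have hane : ∀ m ∈ R.support, a m ≠ 0 := fun m hm =>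
    mul_ne_zero (mem_support_iff.mp hm) (prod_ne_zero_iff.mpr fun i _ => pow_ne_zero _ (hγ i))
  have hne : R.support.Nonempty := by
    rw [nonempty_iff_ne_empty, ne_eq, MvPolynomial.support_eq_empty]
    exact hR0
  obtain ⟨m0, hm0, hmax⟩ := exists_max_image R.support (fun m => V.valuation (a m)) hne
  set g : (Fin N →₀ ℕ) → K := fun m => a m / a m0 with hg
  have hgV : ∀ m ∈ R.support, g m ∈ V := by
    intro m hm
    rw [← ValuationSubring.valuation_le_one_iff, hg]
    simp only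
    rw [map_div₀]
    exact div_le_one_of_le₀ (hmax m hm) zero_le
  have hg0 : g m0 = 1 := div_self (hane m0 hm0)
  -- infinitely divisible elements
  let Inf : K → Prop := fun x => ∀ t : ℕ, x / (p : K) ^ t ∈ V
  set T := R.support.filter fun m => ¬ Inf (g m) with hT
  have hm0T : m0 ∈ T := by
    rw [hT, mem_filter]
    refine ⟨hm0, fun h => hpV ?_⟩
    have := h 1
    rwa [hg0, pow_one, one_div] at this
  obtain ⟨m1, hm1, hmax1⟩ := exists_max_image T (fun m => wt w m) ⟨m0, hm0T⟩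
  set W := wt w m1 with hW
  set S := T.filter fun m => wt w m = W with hS
  have hST : ∀ m ∈ S, m ∈ T := fun m hm => (mem_filter.mp hm).1
  have hTR : ∀ m ∈ T, m ∈ R.support := fun m hm => (mem_filter.mp hm).1
  let gV : (Fin N →₀ ℕ) → V := fun m => if h : g m ∈ V then ⟨g m, h⟩ else 0
  have hgV' : ∀ m ∈ R.support, ((gV m : V) : K) = g m := by
    intro m hm
    simp only [gV]
    rw [dif_pos (hgV m hm)]
  have hrel : ∀ n, (p : V) ^ (2 * d ^ n) ∣ ∑ m ∈ S, gV m * ∏ i, u n i ^ m i := by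
    intro n
    set c : K := (p : K) ^ (2 * d ^ n) with hc
    have hc0 : c ≠ 0 := pow_ne_zero _ hp0
    have hcV : c ∈ V := pow_mem hpVm _
    have h1 : (p : V) ^ (2 * d ^ n) = ⟨c, hcV⟩ := by
      apply Subtype.ext
      simp [hc]
    rw [h1, dvd_iff_coe]
    have h2 := hR n
    rw [eval_eq'] at h2
    have h3 : ∑ m ∈ R.support, c ^ (W - wt w m) * (g m * ∏ i, (u n i : K) ^ m i) = 0 := by
      have h4 : (c ^ W / a m0) * ∑ m ∈ R.support, R.coeff m *
          ∏ i, (γ i * c ^ (-w i) * (u n i : K)) ^ m i = 0 := by rw [h2, mul_zero]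
      rw [← h4, mul_sum]
      refine sum_congr rfl fun m hm => ?_
      rw [prod_scale hc0, sub_eq_add_neg, zpow_add₀ hc0, hg, ha]
      simp only
      have := hane m0 hm0
      field_simp
    have hSR : S ⊆ R.support := fun m hm => hTR m (hST m hm)
    rw [← sum_sdiff hSR] at h3
    obtain ⟨ε, hε, hsum⟩ := exists_sum_eps (V := V) c (R.support \ S)
      (fun m => c ^ (W - wt w m) * (g m * ∏ i, (u n i : K) ^ m i)) (fun m hm => by
        rw [mem_sdiff] at hm
        have hU : (∏ i, (u n i : K) ^ m i) ∈ V := prod_mem fun i _ => pow_mem (u n i).2 _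
        by_cases hmT : m ∈ T
        · have h5 : wt w m ≤ W := hmax1 m hmT
          have h6 : wt w m ≠ W := fun h => hm.2 (mem_filter.mpr ⟨hmT, h⟩)
          exact zpow_mem_mul hc0 hcV (by omega) (V.mul_mem _ _ (hgV m hm.1) hU)
        · have h5 : Inf (g m) := by
            by_contra h
            exact hmT (mem_filter.mpr ⟨hm.1, h⟩)
          refine ⟨(c ^ (W - wt w m - 1) * g m) * ∏ i, (u n i : K) ^ m i,
            V.mul_mem _ _ ?_ hU, ?_⟩
          · obtain ⟨k, hk | hk⟩ := (W - wt w m - 1).eq_nat_or_neg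
            · rw [hk, zpow_natCast]
              exact V.mul_mem _ _ (pow_mem hcV _) (hgV m hm.1)
            · rw [hk, zpow_neg, zpow_natCast, hc, ← pow_mul, inv_mul_eq_div]
              exact h5 _
          · rw [zpow_sub_one₀ hc0]
            field_simp)
    rw [hsum] at h3
    refine ⟨-ε, V.neg_mem _ hε, ?_⟩
    have h6 : ((∑ m ∈ S, gV m * ∏ i, u n i ^ m i : V) : K) =
        ∑ m ∈ S, c ^ (W - wt w m) * (g m * ∏ i, (u n i : K) ^ m i) := by
      push_cast
      refine sum_congr rfl fun m hm => ?_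
      rw [hgV' m (hSR hm), (mem_filter.mp hm).2, sub_self, zpow_zero, one_mul]
    rw [h6]
    linear_combination h3
  have hm1S : m1 ∈ S := mem_filter.mpr ⟨hm1, rfl⟩
  have hfin := core hp hp2 hpm hp0' hd hpd θ hθ u hu0 hu S gV hrel m1 hm1S
  apply (mem_filter.mp hm1).2
  intro t
  have h1 : (p : V) ^ t = ⟨(p : K) ^ t, pow_mem hpVm t⟩ := by
    apply Subtype.ext
    simp
  have h2 := hfin t
  rw [h1, dvd_iff_coe] at h2
  obtain ⟨ε, hε, h3⟩ := h2
  rw [hgV' m1 (hTR m1 hm1)] at h3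
  rw [h3, mul_div_cancel_left₀ _ (pow_ne_zero _ hp0)]
  exact hε

end Pool.Agent.MP_b6294e.Pw
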