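import Pool.Agent.Lib.MP_b6294e_pw.Dense

/-!
# Rational maps with power leading forms: existence of Zariski dense orbits
-/

set_option autoImplicit false

namespace Pool.Agent.MP_b6294e.Pw

open Finset MvPolynomial

variable {K : Type*} [Field K] {N : ℕ}

/-- One step of the iteration. -/
theorem step (V : ValuationSubring K) {c : K} (hc : c ≠ 0) (hcV : c ∈ V)
    (hcm : ∀ ε ∈ V, 1 + c * ε ≠ 0 ∧ (1 + c * ε)⁻¹ ∈ V)
    {d : ℕ} (w : Fin N → ℤ) (γ u : Fin N → K) (hγ : ∀ i, γ i ∈ V ∧ (γ i)⁻¹ ∈ V)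
    (hγ0 : ∀ i, γ i ≠ 0) (hu : ∀ i, u i ∈ V ∧ (u i)⁻¹ ∈ V) (hu0 : ∀ i, u i ≠ 0)
    (P Q : MvPolynomial (Fin N) K) (hP : ∀ m ∈ P.support, P.coeff m ∈ V)
    (hQ : ∀ m ∈ Q.support, Q.coeff m ∈ V) (i : Fin N) (β : Fin N →₀ ℕ)
    (hQ0 : Q.coeff β ≠ 0) (hQu : (Q.coeff β)⁻¹ ∈ V)
    (hP0 : P.coeff (β + Finsupp.single i d) ≠ 0)
    (hQl : ∀ m ∈ Q.support, m ≠ β → wt w m < wt w β)
    (hPl : ∀ m ∈ P.support, m ≠ β + Finsupp.single i d → wt w m < wt w β + d * w i)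
    (hγd : P.coeff (β + Finsupp.single i d) * γ i ^ d = Q.coeff β * γ i) :
    eval (fun i => γ i * c ^ (-w i) * u i) Q ≠ 0 ∧ ∃ ε ∈ V,
      eval (fun i => γ i * c ^ (-w i) * u i) P / eval (fun i => γ i * c ^ (-w i) * u i) Q =
        γ i * (c ^ d) ^ (-w i) * (u i ^ d + c * ε) := by
  classical
  obtain ⟨ε, hε, h1⟩ := eval_top hc hcV w γ u (fun i => (hγ i).1) (fun i => (hu i).1) Q hQ β hQ0 hQl
  obtain ⟨ε', hε', h2⟩ := eval_top hc hcV w γ u (fun i => (hγ i).1) (fun i => (hu i).1) P hP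
    (β + Finsupp.single i d) hP0 (fun m hm hne => by
      rw [wt_add, wt_single]
      exact hPl m hm hne)
  set x : Fin N → K := fun i => γ i * c ^ (-w i) * u i with hx
  set G : K := (∏ i, γ i ^ β i) * ∏ i, u i ^ β i with hG
  have hG0 : G ≠ 0 := mul_ne_zero (prod_ne_zero_iff.mpr fun i _ => pow_ne_zero _ (hγ0 i))
    (prod_ne_zero_iff.mpr fun i _ => pow_ne_zero _ (hu0 i))
  have hGinv : G⁻¹ ∈ V := by
    rw [hG, mul_inv, ← prod_inv_distrib, ← prod_inv_distrib]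
    refine V.mul_mem _ _ (prod_mem fun i _ => ?_) (prod_mem fun i _ => ?_)
    · rw [← inv_pow]
      exact pow_mem (hγ i).2 _
    · rw [← inv_pow]
      exact pow_mem (hu i).2 _
  set A' : K := Q.coeff β * G with hA'
  have hA'0 : A' ≠ 0 := mul_ne_zero hQ0 hG0
  have hA'inv : A'⁻¹ ∈ V := by
    rw [hA', mul_inv]
    exact V.mul_mem _ _ hQu hGinv
  have h3 : (∏ j, γ j ^ (β + Finsupp.single i d) j) * ∏ j, u j ^ (β + Finsupp.single i d) j =
      G * (γ i ^ d * u i ^ d) := by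
    have h4 : ∀ f : Fin N → K, ∏ j, f j ^ (β + Finsupp.single i d) j =
        (∏ j, f j ^ β j) * f i ^ d := by
      intro f
      simp_rw [Finsupp.add_apply, pow_add]
      rw [prod_mul_distrib]
      congr 1
      rw [prod_eq_single i]
      · simp
      · intro j _ hj
        rw [Finsupp.single_apply, if_neg (Ne.symm hj), pow_zero]
      · intro h
        exact absurd (mem_univ i) h
    rw [h4, h4, hG]
    ring
  rw [h3] at h2
  rw [wt_add, wt_single] at h2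
  -- the denominator
  obtain ⟨hv0, hvV⟩ := hcm (A'⁻¹ * ε) (V.mul_mem _ _ hA'inv hε)
  set D : K := A' + c * ε with hD
  have hDA : D = A' * (1 + c * (A'⁻¹ * ε)) := by
    rw [hD, mul_add, mul_one]
    field_simp
  have hD0 : D ≠ 0 := by
    rw [hDA]
    exact mul_ne_zero hA'0 hv0
  have hDinv : D⁻¹ ∈ V := by
    rw [hDA, mul_inv]
    exact V.mul_mem _ _ hA'inv hvV
  have hcb : c ^ wt w β ≠ 0 := zpow_ne_zero _ hc
  have h1' : c ^ wt w β * eval x Q = D := h1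
  have hQ0' : eval x Q ≠ 0 := by
    intro h
    rw [h, mul_zero] at h1'
    exact hD0 h1'.symm
  refine ⟨hQ0', ((γ i)⁻¹ * ε' - u i ^ d * ε) * D⁻¹,
    V.mul_mem _ _ (sub_mem (V.mul_mem _ _ (hγ i).2 hε')
      (V.mul_mem _ _ (pow_mem (hu i).1 _) hε)) hDinv, ?_⟩
  have h5 : P.coeff (β + Finsupp.single i d) * (G * (γ i ^ d * u i ^ d)) =
      A' * (γ i * u i ^ d) := by
    rw [hA']
    linear_combination (G * u i ^ d) * hγd
  rw [h5] at h2
  have hcd : (c ^ d) ^ (-w i) = (c ^ (d * w i : ℤ))⁻¹ := by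
    rw [← zpow_natCast c d, ← zpow_mul, ← zpow_neg]
    congr 1
    ring
  rw [hcd]
  rw [zpow_add₀ hc] at h2
  have hcw : c ^ (d * w i : ℤ) ≠ 0 := zpow_ne_zero _ hc
  have h6 : eval x P = (A' * (γ i * u i ^ d) + c * ε') / (c ^ wt w β * c ^ (d * w i : ℤ)) := by
    rw [eq_div_iff (mul_ne_zero hcb hcw)]
    linear_combination h2
  have h7 : eval x Q = D / c ^ wt w β := by
    rw [eq_div_iff hcb]
    linear_combination h1'
  rw [h6, h7]
  have hγi := hγ0 i
  have h8 : u i ^ d + c * (((γ i)⁻¹ * ε' - u i ^ d * ε) * D⁻¹) =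
      (A' * u i ^ d + c * ((γ i)⁻¹ * ε')) * D⁻¹ := by
    have h9 : D * D⁻¹ = 1 := mul_inv_cancel₀ hD0
    have h10 : u i ^ d = u i ^ d * (D * D⁻¹) := by rw [h9, mul_one]
    rw [hD] at h10 ⊢
    linear_combination h10
  rw [h8]
  field_simp

theorem inv_mem_of_isUnit {V : ValuationSubring K} {x : V} (h : IsUnit x) :
    (x : K) ≠ 0 ∧ (x : K)⁻¹ ∈ V := by
  obtain ⟨v, rfl⟩ := h
  have h1 : ((v : V) : K) * (((v⁻¹ : Vˣ) : V) : K) = 1 :=
    congrArg (fun x : V => (x : K)) v.mul_inv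
  refine ⟨left_ne_zero_of_mul_eq_one h1, ?_⟩
  rw [inv_eq_of_mul_eq_one_right h1]
  exact SetLike.coe_mem _

theorem one_add_unit {V : ValuationSubring K} {p : ℕ} (hpV : (p : K)⁻¹ ∉ V) {k : ℕ} (hk : 1 ≤ k)
    {ε : K} (hε : ε ∈ V) : 1 + (p : K) ^ k * ε ≠ 0 ∧ (1 + (p : K) ^ k * ε)⁻¹ ∈ V := by
  have h1 := isUnit_one_add (p_mem_max V hpV) ((p : V) ^ (k - 1) * ⟨ε, hε⟩)
  have h2 := inv_mem_of_isUnit h1
  have h3 : (((1 + (p : V) * ((p : V) ^ (k - 1) * ⟨ε, hε⟩) : V)) : K) = 1 + (p : K) ^ k * ε := by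
    push_cast
    rw [← mul_assoc, ← pow_succ', Nat.sub_add_cancel hk]
  rwa [h3] at h2

/-- Existence of Zariski dense orbits for rational maps with power leading forms. -/
theorem exists_dense_orbit [IsAlgClosed K] [CharZero K] {d : ℕ} (hd : 2 ≤ d) (w : Fin N → ℤ)
    (P Q : Fin N → MvPolynomial (Fin N) K) (β : Fin N → Fin N →₀ ℕ)
    (hQ0 : ∀ i, (Q i).coeff (β i) ≠ 0)
    (hQl : ∀ i, ∀ m ∈ (Q i).support, m ≠ β i → wt w m < wt w (β i))
    (hP0 : ∀ i, (P i).coeff (β i + Finsupp.single i d) ≠ 0)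
    (hPl : ∀ i, ∀ m ∈ (P i).support, m ≠ β i + Finsupp.single i d →
      wt w m < wt w (β i) + d * w i) :
    ∃ x : ℕ → Fin N → K,
      (∀ n i, eval (x n) (Q i) ≠ 0 ∧ x (n + 1) i = eval (x n) (P i) / eval (x n) (Q i)) ∧
      ∀ R : MvPolynomial (Fin N) K, (∀ n, eval (x n) R = 0) → R = 0 := by
  classical
  have hdpos : ∀ n : ℕ, 1 ≤ d ^ n := fun n => Nat.one_le_pow _ _ (by omega)
  -- the scaling factors
  have hγex : ∀ i, ∃ z : K, z ^ (d - 1) = (Q i).coeff (β i) / (P i).coeff (β i + Finsupp.single i d) :=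
    fun i => IsAlgClosed.exists_pow_nat_eq _ (by omega)
  choose γ hγ1 using hγex
  have hγ0 : ∀ i, γ i ≠ 0 := by
    intro i h
    have h1 := hγ1 i
    rw [h, zero_pow (by omega)] at h1
    exact (div_ne_zero (hQ0 i) (hP0 i)) h1.symm
  have hγd : ∀ i, (P i).coeff (β i + Finsupp.single i d) * γ i ^ d = (Q i).coeff (β i) * γ i := by
    intro i
    have h1 : γ i ^ d = γ i ^ (d - 1) * γ i := by
      rw [← pow_succ, Nat.sub_add_cancel (by omega)]
    rw [h1, hγ1 i]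
    have := hP0 i
    field_simp
  -- the valuation ring
  let s : Finset K := (univ.biUnion fun i => (P i).support.image (P i).coeff ∪
    (Q i).support.image (Q i).coeff) ∪ univ.image γ ∪ {2, (d : K)}
  have hs0 : ∀ x ∈ s, x ≠ 0 := by
    intro x hx
    simp only [s, mem_union, mem_biUnion, mem_image, mem_insert, mem_singleton, mem_univ,
      true_and] at hx
    rcases hx with (⟨i, ⟨m, hm, rfl⟩ | ⟨m, hm, rfl⟩⟩ | ⟨i, rfl⟩) | rfl | rfl
    · exact mem_support_iff.mp hm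
    · exact mem_support_iff.mp hm
    · exact hγ0 i
    · exact two_ne_zero
    · exact_mod_cast (by omega : d ≠ 0)
  obtain ⟨p, V, hp, hsV, hpV⟩ := exists_val K s hs0
  have hPV : ∀ i, ∀ m ∈ (P i).support, (P i).coeff m ∈ V ∧ ((P i).coeff m)⁻¹ ∈ V := by
    intro i m hm
    apply hsV
    simp only [s, mem_union, mem_biUnion, mem_image]
    exact Or.inl (Or.inl ⟨i, mem_univ i, Or.inl ⟨m, hm, rfl⟩⟩)
  have hQV : ∀ i, ∀ m ∈ (Q i).support, (Q i).coeff m ∈ V ∧ ((Q i).coeff m)⁻¹ ∈ V := by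
    intro i m hm
    apply hsV
    simp only [s, mem_union, mem_biUnion, mem_image]
    exact Or.inl (Or.inl ⟨i, mem_univ i, Or.inr ⟨m, hm, rfl⟩⟩)
  have hγV : ∀ i, γ i ∈ V ∧ (γ i)⁻¹ ∈ V := by
    intro i
    apply hsV
    simp only [s, mem_union, mem_image]
    exact Or.inl (Or.inr ⟨i, mem_univ i, rfl⟩)
  have h2V : (2 : K) ∈ V ∧ (2 : K)⁻¹ ∈ V := hsV _ (by simp [s])
  have hdV : (d : K) ∈ V ∧ (d : K)⁻¹ ∈ V := hsV _ (by simp [s])
  have hp0 : (p : K) ≠ 0 := by exact_mod_cast hp.ne_zero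
  have hpVm : (p : K) ∈ V := by exact_mod_cast (SetLike.coe_mem (p : V))
  have hp2 : p ≠ 2 := by
    rintro rfl
    exact hpV (by exact_mod_cast h2V.2)
  have hpd : ¬ p ∣ d := by
    rintro ⟨e, he⟩
    apply hpV
    have he0 : (e : K) ≠ 0 := by
      intro h
      have : e = 0 := by exact_mod_cast h
      rw [this] at he
      omega
    have h1 : (p : K)⁻¹ = e * (d : K)⁻¹ := by
      rw [he]
      push_cast
      field_simp
    rw [h1]
    exact V.mul_mem _ _ (by exact_mod_cast (SetLike.coe_mem (e : V))) hdV.2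
  obtain ⟨θ, hθ⟩ := exists_theta V hp hpV N
  -- the orbit
  let c : ℕ → K := fun n => (p : K) ^ (2 * d ^ n)
  have hc0 : ∀ n, c n ≠ 0 := fun n => pow_ne_zero _ hp0
  have hcV : ∀ n, c n ∈ V := fun n => pow_mem hpVm _
  let x : ℕ → Fin N → K := fun n => Nat.rec (fun i => γ i * (c 0) ^ (-w i) * (1 + p * θ i))
    (fun _ y i => eval y (P i) / eval y (Q i)) n
  have hx0 : ∀ i, x 0 i = γ i * (c 0) ^ (-w i) * (1 + p * θ i) := fun i => rfl
  have hxs : ∀ n i, x (n + 1) i = eval (x n) (P i) / eval (x n) (Q i) := fun n i => rfl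
  have hcs : ∀ n, c (n + 1) = c n ^ d := by
    intro n
    simp only [c]
    rw [← pow_mul]
    congr 1
    ring
  let U : ℕ → Fin N → K := fun n i => x n i / (γ i * c n ^ (-w i))
  have hfac : ∀ n i, γ i * c n ^ (-w i) ≠ 0 := fun n i =>
    mul_ne_zero (hγ0 i) (zpow_ne_zero _ (hc0 n))
  have hxU : ∀ n, x n = fun i => γ i * c n ^ (-w i) * U n i := by
    intro n
    funext i
    simp only [U]
    rw [mul_div_cancel₀ _ (hfac n i)]
  have hunit : ∀ {y τ : V}, A1 p y τ → IsUnit y := by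
    intro y τ h
    obtain ⟨a, ha⟩ := h
    have h1 : y = 1 + p * (τ + p * a) := by linear_combination ha
    rw [h1]
    exact isUnit_one_add (p_mem_max V hpV) _
  have hstep : ∀ n, (∀ i, ∃ h : U n i ∈ V, A1 p (⟨U n i, h⟩ : V) ((d : V) ^ n * θ i)) →
      (∀ i, eval (x n) (Q i) ≠ 0) ∧ ∀ i, ∃ ε ∈ V, U (n + 1) i = U n i ^ d + c n * ε := by
    intro n hn
    have hu : ∀ i, U n i ≠ 0 ∧ (U n i)⁻¹ ∈ V := fun i => by
      obtain ⟨h, hA⟩ := hn i
      exact inv_mem_of_isUnit (hunit hA)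
    have hst := fun i => step V (hc0 n) (hcV n)
      (fun ε hε => one_add_unit hpV (by have := hdpos n; omega) hε) (d := d) w γ (U n)
      hγV hγ0 (fun i => ⟨(hn i).1, (hu i).2⟩) (fun i => (hu i).1) (P i) (Q i)
      (fun m hm => (hPV i m hm).1) (fun m hm => (hQV i m hm).1) i (β i) (hQ0 i)
      (hQV i _ (mem_support_iff.mpr (hQ0 i))).2 (hP0 i) (hQl i) (hPl i) (hγd i)
    refine ⟨fun i => ?_, fun i => ?_⟩
    · rw [hxU n]
      exact (hst i).1
    · obtain ⟨ε, hε, h⟩ := (hst i).2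
      refine ⟨ε, hε, ?_⟩
      have h1 : x (n + 1) i = γ i * c (n + 1) ^ (-w i) * (U n i ^ d + c n * ε) := by
        rw [hxs, hcs, ← h, ← hxU n]
      have h2 := hfac (n + 1) i
      simp only [U] at h1 ⊢
      rw [h1, mul_div_cancel_left₀ _ h2]
  have hinv : ∀ n i, ∃ h : U n i ∈ V, A1 p (⟨U n i, h⟩ : V) ((d : V) ^ n * θ i) := by
    intro n
    induction n with
    | zero =>
      intro i
      have h1 : U 0 i = 1 + p * θ i := by
        simp only [U]
        rw [hx0, mul_div_cancel_left₀ _ (hfac 0 i)]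
      have h2 : U 0 i ∈ V := by
        rw [h1]
        exact V.add_mem _ _ V.one_mem (V.mul_mem _ _ hpVm (θ i).2)
      refine ⟨h2, 0, ?_⟩
      apply Subtype.ext
      push_cast
      rw [h1]
      ring
    | succ n ih =>
      intro i
      obtain ⟨ε, hε, h1⟩ := (hstep n ih).2 i
      obtain ⟨h, hA⟩ := ih i
      have h2 : U (n + 1) i ∈ V := by
        rw [h1]
        exact V.add_mem _ _ (pow_mem h _) (V.mul_mem _ _ (hcV n) hε)
      refine ⟨h2, ?_⟩
      have h3 := hA.pow d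
      have h4 : (d : V) * ((d : V) ^ n * θ i) = (d : V) ^ (n + 1) * θ i := by ring
      rw [h4] at h3
      refine h3.congr ?_
      have h5 : (⟨U (n + 1) i, h2⟩ : V) - (⟨U n i, h⟩ : V) ^ d = (p : V) ^ (2 * d ^ n) * ⟨ε, hε⟩ := by
        apply Subtype.ext
        push_cast
        rw [h1]
        simp only [c]
        ring
      rw [h5]
      exact Dvd.dvd.mul_right (pow_dvd_pow _ (by have := hdpos n; omega)) _
  refine ⟨x, fun n i => ⟨(hstep n (hinv n)).1 i, hxs n i⟩, fun R hR => ?_⟩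
  refine no_relation V hp hp2 hpV hp0 hd hpd θ hθ (fun n i => ⟨U n i, (hinv n i).1⟩) ?_ ?_ w γ hγ0 R ?_
  · intro i
    obtain ⟨h, hA⟩ := hinv 0 i
    simpa using hA
  · intro n i
    obtain ⟨ε, hε, h1⟩ := (hstep n (hinv n)).2 i
    refine ⟨⟨ε, hε⟩, ?_⟩
    apply Subtype.ext
    push_cast
    rw [h1]
    simp only [c]
    ring
  · intro n
    have h1 := hR n
    rw [hxU n] at h1
    exact h1

end Pool.Agent.MP_b6294e.Pw
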