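import Mathlib

/-!
# The closure of the powers of `d` in the `p`-adic integers
-/

set_option autoImplicit false

namespace Pool.Agent.MP_b6294e.Pw

private theorem pow_aux (P p c : ℤ) (hP : p ∣ P) (l : ℕ) :
    (1 + P * c) ^ l ≡ 1 + l * (P * c) [ZMOD P * p] := by
  induction l with
  | zero => simp
  | succ l ih =>
    have h1 : (1 + P * c) ^ (l + 1) ≡ (1 + l * (P * c)) * (1 + P * c) [ZMOD P * p] := by
      rw [pow_succ]
      exact ih.mul_right _
    refine h1.trans ?_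
    have h2 : (1 + (l : ℤ) * (P * c)) * (1 + P * c) =
        (1 + ((l + 1 : ℕ) : ℤ) * (P * c)) + P * P * (l * c * c) := by
      push_cast
      ring
    rw [h2]
    have h3 : P * P * ((l : ℤ) * c * c) ≡ 0 [ZMOD P * p] := by
      rw [Int.modEq_zero_iff_dvd]
      exact Dvd.dvd.mul_right (mul_dvd_mul_left P hP) _
    simpa using (Int.ModEq.refl (1 + ((l + 1 : ℕ) : ℤ) * (P * c))).add h3

/-- For an odd prime `p` which does not divide `d ≥ 2` the `p`-adic closure of the powers of `d`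
contains all `x ≡ 1` modulo a power of `p`. -/
theorem closure_pow (p : ℕ) (hp : p.Prime) (hp2 : p ≠ 2) (d : ℕ) (hd : 2 ≤ d) (hpd : ¬ p ∣ d) :
    ∃ a, 1 ≤ a ∧ ∀ i t : ℕ, ∃ j : ℕ, d ^ j ≡ 1 + p ^ a * i [MOD p ^ t] := by
  have : Fact p.Prime := ⟨hp⟩
  have hodd : Odd p := hp.odd_of_ne_two hp2
  have hp1 : 1 ≤ p - 1 := by have := hp.two_le; omega
  set D : ℕ := d ^ (p - 1) with hD
  have hD1 : 1 < D := by
    rw [hD]
    exact Nat.one_lt_pow (by omega) (by omega)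
  have hcop : Nat.Coprime d p := (Nat.Coprime.symm ((Nat.Prime.coprime_iff_not_dvd hp).mpr hpd))
  have hDp : p ∣ D - 1 := by
    have h1 : D ≡ 1 [MOD p] := by
      have := Nat.ModEq.pow_totient hcop
      rwa [Nat.totient_prime hp] at this
    exact (Nat.modEq_iff_dvd' hD1.le).mp h1.symm
  have hpD : ¬ p ∣ D := fun h => hpd (hp.dvd_of_dvd_pow h)
  set a := padicValNat p (D - 1) with ha
  have ha1 : 1 ≤ a := by
    rw [ha]
    exact one_le_padicValNat_of_dvd (by omega) hDp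
  refine ⟨a, ha1, ?_⟩
  -- exact valuation of `D ^ (p ^ t) - 1`
  have hval : ∀ t : ℕ, ∃ c : ℤ, ((D : ℤ) ^ (p ^ t) = 1 + (p : ℤ) ^ (a + t) * c) ∧ ¬ (p : ℤ) ∣ c := by
    intro t
    have h1 : padicValNat p (D ^ (p ^ t) - 1 ^ (p ^ t)) =
        padicValNat p (D - 1) + padicValNat p (p ^ t) :=
      padicValNat.pow_sub_pow hodd hD1 hDp hpD (pow_ne_zero _ hp.ne_zero)
    rw [one_pow, padicValNat.prime_pow, ← ha] at h1
    have h2 : 1 < D ^ (p ^ t) := Nat.one_lt_pow (pow_ne_zero _ hp.ne_zero) hD1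
    have h3 : D ^ (p ^ t) - 1 ≠ 0 := by omega
    have h4 : p ^ (a + t) ∣ D ^ (p ^ t) - 1 := by
      rw [← h1]
      exact pow_padicValNat_dvd
    obtain ⟨c, hc⟩ := h4
    have h5 : ¬ p ∣ c := by
      intro hpc
      have h6 : p ^ (a + t + 1) ∣ D ^ (p ^ t) - 1 := by
        rw [hc, pow_succ]
        exact mul_dvd_mul_left _ hpc
      have h7 := (padicValNat_dvd_iff_le h3).mp h6
      omega
    refine ⟨c, ?_, by exact_mod_cast h5⟩
    have h8 : D ^ (p ^ t) = 1 + p ^ (a + t) * c := by omega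
    exact_mod_cast h8
  have key : ∀ (t : ℕ) (x : ℤ), x ≡ 1 [ZMOD (p : ℤ) ^ a] →
      ∃ j : ℕ, (D : ℤ) ^ j ≡ x [ZMOD (p : ℤ) ^ (a + t)] := by
    intro t
    induction t with
    | zero =>
      intro x hx
      exact ⟨0, by simpa using hx.symm⟩
    | succ t ih =>
      intro x hx
      obtain ⟨j, hj⟩ := ih x hx
      obtain ⟨c, hc, hpc⟩ := hval t
      obtain ⟨y, hy⟩ := (Int.modEq_iff_dvd.mp hj)
      -- choose l
      obtain ⟨l, hl⟩ : ∃ l : ℕ, (l : ℤ) * c ≡ y [ZMOD p] := by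
        have hcz : (c : ZMod p) ≠ 0 := by
          intro h
          exact hpc ((ZMod.intCast_zmod_eq_zero_iff_dvd c p).mp h)
        refine ⟨((y : ZMod p) * (c : ZMod p)⁻¹).val, ?_⟩
        rw [← ZMod.intCast_eq_intCast_iff]
        push_cast
        rw [ZMod.natCast_val, ZMod.cast_id', id, mul_assoc, inv_mul_cancel₀ hcz, mul_one]
      refine ⟨j + p ^ t * l, ?_⟩
      have h1 : (D : ℤ) ^ (j + p ^ t * l) = (D : ℤ) ^ j * (1 + (p : ℤ) ^ (a + t) * c) ^ l := by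
        rw [pow_add, pow_mul, hc]
      rw [h1]
      have hpP : (p : ℤ) ∣ (p : ℤ) ^ (a + t) := dvd_pow_self _ (by omega)
      have h2 := pow_aux ((p : ℤ) ^ (a + t)) p c hpP l
      rw [← pow_succ] at h2
      have h3 : (D : ℤ) ^ j * (1 + (p : ℤ) ^ (a + t) * c) ^ l ≡
          (D : ℤ) ^ j * (1 + l * ((p : ℤ) ^ (a + t) * c)) [ZMOD (p : ℤ) ^ (a + t + 1)] :=
        h2.mul_left _
      refine h3.trans ?_
      rw [Int.modEq_iff_dvd]
      -- x - D^j - D^j l P c = P (y - D^j l c)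
      have h4 : x - (D : ℤ) ^ j * (1 + l * ((p : ℤ) ^ (a + t) * c)) =
          (p : ℤ) ^ (a + t) * (y - (D : ℤ) ^ j * (l * c)) := by
        have : x = (D : ℤ) ^ j + (p : ℤ) ^ (a + t) * y := by linarith
        rw [this]
        ring
      rw [h4, pow_succ]
      apply mul_dvd_mul_left
      have h5 : (D : ℤ) ≡ 1 [ZMOD p] := by
        have : ((D - 1 : ℕ) : ℤ) = (D : ℤ) - 1 := by
          rw [Nat.cast_sub hD1.le]
          simp
        refine (Int.modEq_iff_dvd.mpr ?_).symm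
        rw [← this]
        exact_mod_cast hDp
      have h6 : (D : ℤ) ^ j * (l * c) ≡ 1 * y [ZMOD p] := by
        have h7 : (D : ℤ) ^ j ≡ 1 [ZMOD p] := by
          simpa using h5.pow j
        exact h7.mul hl
      rw [one_mul] at h6
      exact Int.modEq_iff_dvd.mp h6
  intro i t
  obtain ⟨j, hj⟩ := key t (1 + (p : ℤ) ^ a * i) (by
    refine (Int.modEq_iff_dvd.mpr ?_).symm
    rw [add_sub_cancel_left]
    exact dvd_mul_right _ _)
  refine ⟨(p - 1) * j, ?_⟩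
  have h1 : (D : ℤ) ^ j ≡ 1 + (p : ℤ) ^ a * i [ZMOD (p : ℤ) ^ t] :=
    hj.of_dvd (pow_dvd_pow _ (by omega))
  have h2 : ((d ^ ((p - 1) * j) : ℕ) : ℤ) ≡ ((1 + p ^ a * i : ℕ) : ℤ) [ZMOD ((p ^ t : ℕ) : ℤ)] := by
    push_cast
    rw [pow_mul]
    have : (D : ℤ) = (d : ℤ) ^ (p - 1) := by rw [hD]; push_cast; rfl
    rw [← this]
    exact h1
  exact Int.natCast_modEq_iff.mp h2

end Pool.Agent.MP_b6294e.Pw
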