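import Pool.Agent.Lib.MP_b6294e_pw.Val

/-!
# Evaluation at points with large coordinates
-/

set_option autoImplicit false

namespace Pool.Agent.MP_b6294e.Pw

open Finset MvPolynomial

variable {K : Type*} [Field K] {N : ℕ}

/-- The weight of an exponent vector. -/
def wt (w : Fin N → ℤ) (m : Fin N →₀ ℕ) : ℤ := ∑ i, w i * m i

theorem wt_add (w : Fin N → ℤ) (m m' : Fin N →₀ ℕ) : wt w (m + m') = wt w m + wt w m' := by
  unfold wt
  rw [← sum_add_distrib]
  refine sum_congr rfl fun i _ => ?_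
  rw [Finsupp.add_apply]
  push_cast
  ring

theorem wt_single (w : Fin N → ℤ) (i : Fin N) (d : ℕ) :
    wt w (Finsupp.single i d) = d * w i := by
  classical
  unfold wt
  rw [sum_eq_single i]
  · simp [mul_comm]
  · intro j _ hj
    rw [Finsupp.single_apply, if_neg (Ne.symm hj)]
    simp
  · intro h
    exact absurd (mem_univ i) h

theorem prod_scale {c : K} (hc : c ≠ 0) (w : Fin N → ℤ) (γ u : Fin N → K) (m : Fin N →₀ ℕ) :
    ∏ i, (γ i * c ^ (-w i) * u i) ^ m i =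
      c ^ (-wt w m) * ((∏ i, γ i ^ m i) * ∏ i, u i ^ m i) := by
  have h1 : c ^ (-wt w m) = ∏ i, (c ^ (-w i)) ^ m i := by
    unfold wt
    rw [← sum_neg_distrib]
    have h2 : ∀ s : Finset (Fin N), c ^ (∑ i ∈ s, -(w i * (m i : ℤ))) = ∏ i ∈ s, (c ^ (-w i)) ^ m i := by
      classical
      intro s
      induction s using Finset.induction_on with
      | empty => simp
      | insert i s hi ih =>
        rw [sum_insert hi, prod_insert hi, zpow_add₀ hc, ih]
        congr 1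
        rw [← zpow_natCast, ← zpow_mul]
        congr 1
        ring
    exact h2 univ
  rw [h1, ← prod_mul_distrib, ← prod_mul_distrib]
  refine prod_congr rfl fun i _ => ?_
  rw [mul_pow, mul_pow]
  ring

/-- Positive powers of `c` are multiples of `c`. -/
theorem zpow_mem_mul {V : ValuationSubring K} {c : K} (hc : c ≠ 0) (hcV : c ∈ V) {z : ℤ}
    (hz : 1 ≤ z) {a : K} (ha : a ∈ V) : ∃ ε ∈ V, c ^ z * a = c * ε := by
  obtain ⟨n, hn⟩ := Int.eq_ofNat_of_zero_le (show 0 ≤ z - 1 by omega)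
  refine ⟨c ^ n * a, V.mul_mem _ _ (pow_mem hcV n) ha, ?_⟩
  have : z = 1 + n := by omega
  rw [this, zpow_add₀ hc, zpow_one, zpow_natCast]
  ring

theorem exists_sum_eps {ι : Type*} {V : ValuationSubring K} (c : K) (s : Finset ι) (f : ι → K)
    (h : ∀ m ∈ s, ∃ ε ∈ V, f m = c * ε) : ∃ ε ∈ V, ∑ m ∈ s, f m = c * ε := by
  classical
  choose! ε hε hf using h
  refine ⟨∑ m ∈ s, ε m, sum_mem hε, ?_⟩
  rw [mul_sum]
  exact sum_congr rfl hf

/-- The value of a polynomial with a dominant monomial. -/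
theorem eval_top {V : ValuationSubring K} {c : K} (hc : c ≠ 0) (hcV : c ∈ V) (w : Fin N → ℤ)
    (γ u : Fin N → K) (hγ : ∀ i, γ i ∈ V) (hu : ∀ i, u i ∈ V) (R : MvPolynomial (Fin N) K)
    (hR : ∀ m ∈ R.support, R.coeff m ∈ V) (m0 : Fin N →₀ ℕ) (hm0 : R.coeff m0 ≠ 0)
    (hlt : ∀ m ∈ R.support, m ≠ m0 → wt w m < wt w m0) :
    ∃ ε ∈ V, c ^ (wt w m0) * eval (fun i => γ i * c ^ (-w i) * u i) R =
      R.coeff m0 * ((∏ i, γ i ^ m0 i) * ∏ i, u i ^ m0 i) + c * ε := by
  classical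
  have hmem : ∀ m ∈ R.support, R.coeff m * ((∏ i, γ i ^ m i) * ∏ i, u i ^ m i) ∈ V :=
    fun m hm => V.mul_mem _ _ (hR m hm) (V.mul_mem _ _ (prod_mem fun i _ => pow_mem (hγ i) _)
      (prod_mem fun i _ => pow_mem (hu i) _))
  have hm0s : m0 ∈ R.support := mem_support_iff.mpr hm0
  obtain ⟨ε, hε, hsum⟩ := exists_sum_eps (V := V) c (R.support.erase m0)
    (fun m => c ^ (wt w m0 - wt w m) * (R.coeff m * ((∏ i, γ i ^ m i) * ∏ i, u i ^ m i)))
    (fun m hm => zpow_mem_mul hc hcV (by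
      have := hlt m (mem_of_mem_erase hm) (ne_of_mem_erase hm)
      omega) (hmem m (mem_of_mem_erase hm)))
  refine ⟨ε, hε, ?_⟩
  rw [eval_eq', mul_sum, ← add_sum_erase _ _ hm0s, ← hsum]
  congr 1
  · rw [prod_scale hc, zpow_neg]
    field_simp
  · refine sum_congr rfl fun m _ => ?_
    rw [prod_scale hc, sub_eq_add_neg, zpow_add₀ hc]
    ring

end Pool.Agent.MP_b6294e.Pw
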