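import Pool.Agent.Lib.MP_b6294e.Place
import Pool.Agent.Lib.MP_b6294e_pw.Core

/-!
# Valuation rings and residue fields
-/

set_option autoImplicit false

namespace Pool.Agent.MP_b6294e.Pw

open Finset

/-- Finitely many nonzero elements of a field of characteristic zero are units of a valuation ring
with residue field of positive characteristic. -/
theorem exists_val (K : Type*) [Field K] [CharZero K] (s : Finset K) (_hs : ∀ x ∈ s, x ≠ 0) :
    ∃ (p : ℕ) (V : ValuationSubring K), p.Prime ∧ (∀ x ∈ s, x ∈ V ∧ x⁻¹ ∈ V) ∧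
      (p : K)⁻¹ ∉ V := by
  classical
  let A : Subalgebra ℤ K := Algebra.adjoin ℤ (((s ∪ s.image fun x => x⁻¹ : Finset K)) : Set K)
  have hft : Algebra.FiniteType ℤ A := A.fg_iff_finiteType.mp (Subalgebra.fg_adjoin_finset _)
  obtain ⟨𝔪, h𝔪⟩ := Ideal.exists_maximal A
  have hfin : Finite (A ⧸ 𝔪) := finite_quotient_maximal A 𝔪
  let : Field (A ⧸ 𝔪) := Ideal.Quotient.field 𝔪
  obtain ⟨p, hp⟩ := CharP.exists (A ⧸ 𝔪)
  have hpp : p.Prime := by
    rcases CharP.char_is_prime_or_zero (A ⧸ 𝔪) p with h | h
    · exact h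
    · subst h
      have : CharZero (A ⧸ 𝔪) := CharP.charP_to_charZero _
      exact absurd hfin (not_finite_iff_infinite.mpr inferInstance)
  have hp𝔪 : (p : A) ∈ 𝔪 := by
    rw [← Ideal.Quotient.eq_zero_iff_mem, map_natCast]
    exact CharP.cast_eq_zero _ p
  obtain ⟨V, hV1, hV2⟩ := Ideal.image_subset_nonunits_valuationSubring (A := A.toSubring)
    (𝔪 : Ideal A.toSubring) h𝔪.ne_top
  refine ⟨p, V, hpp, fun x hx => ⟨hV1 ?_, hV1 ?_⟩, ?_⟩
  · exact Algebra.subset_adjoin (by simp [hx])
  · refine Algebra.subset_adjoin ?_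
    rw [Finset.mem_coe, Finset.mem_union, Finset.mem_image]
    exact Or.inr ⟨x, hx, rfl⟩
  · have h1 : (p : K) ∈ V.nonunits := by
      apply hV2
      exact ⟨(p : A), hp𝔪, by simp⟩
    have hp0 : (p : K) ≠ 0 := by exact_mod_cast hpp.ne_zero
    intro h
    rw [ValuationSubring.mem_nonunits_iff] at h1
    rw [← ValuationSubring.valuation_le_one_iff, map_inv₀] at h
    have h2 : V.valuation (p : K) ≠ 0 := by
      rw [ne_eq, map_eq_zero]
      exact hp0
    have h3 : 1 < (V.valuation (p : K))⁻¹ := (one_lt_inv₀ (zero_lt_iff.mpr h2)).mpr h1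
    exact absurd h (not_le.mpr h3)

variable {K : Type*} [Field K]

theorem p_mem_max (V : ValuationSubring K) {p : ℕ} (hpV : (p : K)⁻¹ ∉ V) :
    ((p : ℕ) : V) ∈ IsLocalRing.maximalIdeal V := by
  rw [IsLocalRing.mem_maximalIdeal, mem_nonunits_iff]
  rintro ⟨u, hu⟩
  apply hpV
  have h1 : ((u : V) : K) = (p : K) := by rw [hu]; simp
  have h2 : (p : K)⁻¹ = (((u⁻¹ : Vˣ) : V) : K) := by
    rw [← h1]
    have h3 : ((u : V) : K) * (((u⁻¹ : Vˣ) : V) : K) = 1 := by
      exact congrArg (fun x : V => (x : K)) u.mul_inv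
    exact inv_eq_of_mul_eq_one_right h3
  rw [h2]
  exact SetLike.coe_mem _

/-- Elements of a valuation ring of an algebraically closed field whose residues are linearly
independent over the prime field. -/
theorem exists_theta [IsAlgClosed K] [CharZero K] (V : ValuationSubring K) {p : ℕ}
    (hp : p.Prime) (hpV : (p : K)⁻¹ ∉ V) (N : ℕ) :
    ∃ θ : Fin N → V, ∀ j : Fin N → ℤ, (∃ i, ¬ (p : ℤ) ∣ j i) → IsUnit (∑ i, (j i : V) * θ i) := by
  classical
  have : Fact p.Prime := ⟨hp⟩
  have hpm := p_mem_max V hpV
  let k := IsLocalRing.ResidueField V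
  have hchar : CharP k p := by
    rw [CharP.charP_iff_prime_eq_zero hp, ← map_natCast (IsLocalRing.residue V),
      IsLocalRing.residue_eq_zero_iff]
    exact hpm
  let : Algebra (ZMod p) k := ZMod.algebra k p
  have hinf : Infinite k := by
    by_contra hfin
    rw [not_infinite_iff_finite] at hfin
    have := Fintype.ofFinite k
    set q := Fintype.card k with hq
    have hq1 : 1 < q := Fintype.one_lt_card
    let P : Polynomial V := Polynomial.X ^ q - Polynomial.X + 1
    have hPm : P.Monic := by
      have h1 : P = Polynomial.X ^ q + (-Polynomial.X + 1) := by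
        simp only [P]
        ring
      rw [h1]
      apply Polynomial.monic_X_pow_add
      refine lt_of_le_of_lt (Polynomial.degree_add_le _ _) ?_
      rw [max_lt_iff, Polynomial.degree_neg, Polynomial.degree_X, Polynomial.degree_one]
      constructor
      · exact_mod_cast hq1
      · exact_mod_cast (by omega : 0 < q)
    have hdeg : (P.map (algebraMap V K)).degree ≠ 0 := by
      rw [hPm.degree_map]
      have h1 : P = Polynomial.X ^ q + (-Polynomial.X + 1) := by
        simp only [P]
        ring
      have h2 : P.degree = q := by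
        rw [h1]
        rw [Polynomial.degree_add_eq_left_of_degree_lt]
        · exact Polynomial.degree_X_pow q
        · rw [Polynomial.degree_X_pow]
          refine lt_of_le_of_lt (Polynomial.degree_add_le _ _) ?_
          rw [max_lt_iff, Polynomial.degree_neg, Polynomial.degree_X, Polynomial.degree_one]
          constructor
          · exact_mod_cast hq1
          · exact_mod_cast (by omega : 0 < q)
      rw [h2]
      exact_mod_cast (by omega : q ≠ 0)
    obtain ⟨x, hx⟩ := IsAlgClosed.exists_root _ hdeg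
    rw [Polynomial.IsRoot.def, Polynomial.eval_map] at hx
    have hint : IsIntegral V x := ⟨P, hPm, hx⟩
    obtain ⟨y, hy⟩ := (IsIntegrallyClosed.isIntegral_iff (R := V) (K := K)).mp hint
    have h0 : P.eval y = 0 := by
      apply FaithfulSMul.algebraMap_injective V K
      rw [map_zero, ← Polynomial.eval₂_hom, hy]
      exact hx
    have h1 : IsLocalRing.residue V (P.eval y) = 1 := by
      simp only [P, Polynomial.eval_add, Polynomial.eval_sub, Polynomial.eval_pow,
        Polynomial.eval_X, Polynomial.eval_one, map_add, map_sub, map_pow, map_one]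
      rw [FiniteField.pow_card]
      ring
    rw [h0, map_zero] at h1
    exact zero_ne_one h1
  have hrank : (N : Cardinal) ≤ Module.rank (ZMod p) k := by
    by_contra h
    have h1 : Module.rank (ZMod p) k < Cardinal.aleph0 :=
      (not_le.mp h).trans (Cardinal.natCast_lt_aleph0)
    have h2 : Module.Finite (ZMod p) k := Module.rank_lt_aleph0_iff.mp h1
    have h3 : Finite k := Module.finite_of_finite (ZMod p)
    exact absurd h3 (not_finite_iff_infinite.mpr hinf)
  obtain ⟨f, hli⟩ := exists_linearIndependent_of_le_rank hrank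
  choose θ hθ using fun i => IsLocalRing.residue_surjective (f i)
  refine ⟨θ, fun j hj => ?_⟩
  by_contra hu
  have h1 : IsLocalRing.residue V (∑ i, (j i : V) * θ i) = 0 := by
    rw [IsLocalRing.residue_eq_zero_iff]
    exact (IsLocalRing.mem_maximalIdeal _).mpr hu
  rw [map_sum] at h1
  have h2 : ∑ i, (j i : ZMod p) • f i = 0 := by
    rw [← h1]
    refine sum_congr rfl fun i _ => ?_
    rw [map_mul, hθ, map_intCast, Algebra.smul_def]
    congr 1
    rw [map_intCast]
  have h3 := (Fintype.linearIndependent_iff.mp hli) (fun i => (j i : ZMod p)) h2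
  obtain ⟨i, hi⟩ := hj
  exact hi ((ZMod.intCast_zmod_eq_zero_iff_dvd _ _).mp (h3 i))

end Pool.Agent.MP_b6294e.Pw
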